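import Mathlib
import Pool.Agent.Helper890.ChiDef
import Pool.Agent.Helper890.ChiFinal

namespace Pool.Agent.Results.MP_189914_nt.LevineOSullivan

open Pool.Agent.Helper890

/-- Sanity check: `chi 1 = 1`. -/
theorem chi_at_one : chi 1 = 1 := chi_one

/-- Sanity check: for `i ≥ 2`, `chi i` is the greatest element of
`{(j+1)(i - chi j) : 1 ≤ j < i}`. -/
theorem chi_recursion (i : ℕ) (hi : 2 ≤ i) :
    IsGreatest {x : ℤ | ∃ j : ℕ, 1 ≤ j ∧ j < i ∧ x = ((j : ℤ) + 1) * ((i : ℤ) - chi j)} (chi i) := by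
  constructor
  · obtain ⟨p, h1, h2, h3⟩ := chi_exists hi
    exact ⟨p, h1, h2, h3⟩
  · rintro x ⟨j, h1, h2, rfl⟩
    exact chi_ge' hi h1 h2

/-- Sanity check: the first values are 1, 2, 4, 6, 9. -/
theorem chi_values : chi 1 = 1 ∧ chi 2 = 2 ∧ chi 3 = 4 ∧ chi 4 = 6 ∧ chi 5 = 9 := by
  refine ⟨?_, ?_, ?_, ?_, ?_⟩ <;> rw [chi_tab _ (by norm_num) (by norm_num)] <;> decide +kernel

/-- Sanity check: the chi sequence itself satisfies the chi inequality. -/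
theorem chi_satisfies (i j : ℕ) (hi : 1 ≤ i) (hj : 1 ≤ j) :
    ((j : ℤ) + 1) * (i : ℤ) ≤ chi i + ((j : ℤ) + 1) * chi j := by
  have := chi_ge hi hj
  linarith

/-- The conjecture of Levine and O'Sullivan on the chi inequality (full statement): every integer
sequence `(a k)`, `k ≥ 1`, with `a i + (j+1) a j ≥ (j+1) i` for all `i, j ≥ 1` has
`∑ 1 / a k ≤ ∑ 1 / chi k`, both series being convergent series of positive terms. -/
theorem result (a : ℕ → ℤ)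
    (ha : ∀ i j : ℕ, 1 ≤ i → 1 ≤ j → a i + ((j : ℤ) + 1) * a j ≥ ((j : ℤ) + 1) * (i : ℤ)) :
    (∀ k : ℕ, 1 ≤ k → 0 < a k) ∧ (∀ k : ℕ, 1 ≤ k → 0 < chi k) ∧
    Summable (fun k : ℕ => 1 / (a (k + 1) : ℝ)) ∧
    Summable (fun k : ℕ => 1 / (chi (k + 1) : ℝ)) ∧
    ∑' k : ℕ, 1 / (a (k + 1) : ℝ) ≤ ∑' k : ℕ, 1 / (chi (k + 1) : ℝ) := by
  obtain ⟨h1, h2⟩ := main_infinite a ha
  refine ⟨?_, fun k hk => chi_pos hk, h1, summable_chi, h2⟩
  intro k hk
  have h3 := a_ge_self hk (ha k k hk hk)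
  have h4 : (1 : ℤ) ≤ k := by exact_mod_cast hk
  linarith

end Pool.Agent.Results.MP_189914_nt.LevineOSullivan
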